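import Pool.Agent.Helper26.LU.Goals

/-!
# LU-G4: Lipschitz bound of the radial function by convexity
-/

namespace Pool.Agent.Helper53.LU

open Pool.Agent.Helper26.LU Matrix Real

theorem gauge_bounds {g ε : ℝ} (hε : 0 ≤ ε) (hε4 : ε ≤ 1 / 4) (hg : 0 < g⁻¹)
    (h : |g⁻¹ ^ 2 - 1| ≤ ε) : 1 - 2 * ε ≤ g ∧ g ≤ 1 + 2 * ε := by
  have hgp : 0 < g := inv_pos.1 hg
  have h1 := abs_le.1 h
  have hmul : g⁻¹ ^ 2 * g ^ 2 = 1 := by
    rw [← mul_pow, inv_mul_cancel₀ hgp.ne', one_pow]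
  have hg2 : 0 < g ^ 2 := by positivity
  -- (1 - ε) g^2 ≤ 1 ≤ (1 + ε) g^2
  have hA : (1 - ε) * g ^ 2 ≤ 1 := by nlinarith [h1.1]
  have hB : 1 ≤ (1 + ε) * g ^ 2 := by nlinarith [h1.2]
  constructor
  · by_contra hlt
    push Not at hlt
    have h2 : g ^ 2 ≤ (1 - 2 * ε) ^ 2 := by nlinarith
    have h3 : g ^ 2 < (1 - 2 * ε) ^ 2 := by nlinarith
    have h4 : (1 + ε) * (1 - 2 * ε) ^ 2 ≤ 1 := by nlinarith [mul_nonneg hε hε, mul_nonneg (mul_nonneg hε hε) hε]
    nlinarith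
  · by_contra hlt
    push Not at hlt
    have h3 : (1 + 2 * ε) ^ 2 < g ^ 2 := by nlinarith
    have h4 : 1 ≤ (1 - ε) * (1 + 2 * ε) ^ 2 := by nlinarith [mul_nonneg hε hε, mul_nonneg (mul_nonneg hε hε) hε]
    nlinarith

theorem one_side {K : Set V} {ε : ℝ} (hK : Convex ℝ K) (h0 : (0 : V) ∈ interior K)
    (hε : 0 ≤ ε) (hε4 : ε ≤ 1 / 4)
    (hb : ∀ u ∈ sph, 1 - 2 * ε ≤ gauge K u ∧ gauge K u ≤ 1 + 2 * ε)
    {u v : V} (hu : u ∈ sph) (hv : v ∈ sph) :
    gauge K v - gauge K u ≤ 5 * Real.sqrt ε * nrm (v - u) := by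
  have hd0 : 0 ≤ nrm (v - u) := nrm_nonneg _
  have hs0 : 0 ≤ Real.sqrt ε := Real.sqrt_nonneg _
  rcases hε.eq_or_lt with h | hpos
  · subst h
    have h1 := hb u hu
    have h2 := hb v hv
    have : 0 ≤ 5 * Real.sqrt 0 * nrm (v - u) := by positivity
    linarith [h1.1, h2.2]
  · by_cases huv : v - u = 0
    · have : v = u := sub_eq_zero.1 huv
      subst this
      have : 0 ≤ 5 * Real.sqrt ε * nrm (v - v) := by positivity
      linarith
    · have hd : 0 < nrm (v - u) := nrm_pos huv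
      set d := nrm (v - u) with hddef
      have hsp : 0 < Real.sqrt ε := Real.sqrt_pos.2 hpos
      set l := Real.sqrt ε / d with hl
      have hlp : 0 < l := div_pos hsp hd
      have habs : Absorbent ℝ K := absorbent_nhds_zero (mem_interior_iff_mem_nhds.1 h0)
      set w : V := v + l • (v - u) with hw
      have hvw : (1 + l) • v = w + l • u := by
        rw [hw]; module
      have hsub : (1 + l) * gauge K v ≤ gauge K w + l * gauge K u := by
        have h1 : gauge K ((1 + l) • v) = (1 + l) * gauge K v := by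
          rw [gauge_smul_of_nonneg (by positivity : (0:ℝ) ≤ 1 + l)]; rfl
        have h2 : gauge K (l • u) = l * gauge K u := by
          rw [gauge_smul_of_nonneg hlp.le]; rfl
        calc (1 + l) * gauge K v = gauge K (w + l • u) := by rw [← h1, hvw]
          _ ≤ gauge K w + gauge K (l • u) := gauge_add_le hK habs _ _
          _ = gauge K w + l * gauge K u := by rw [h2]
      have hww : w ⬝ᵥ w = 1 + l * (1 + l) * d ^ 2 := by
        have hu1 : u ⬝ᵥ u = 1 := hu
        have hv1 : v ⬝ᵥ v = 1 := hv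
        have hd2 : d ^ 2 = (v - u) ⬝ᵥ (v - u) := nrm_sq _
        have huv' : u ⬝ᵥ v = v ⬝ᵥ u := dotProduct_comm _ _
        rw [hd2, hw]
        simp only [add_dotProduct, dotProduct_add, smul_dotProduct, dotProduct_smul,
          sub_dotProduct, dotProduct_sub, smul_eq_mul]
        rw [hu1, hv1, huv']
        ring
      have hgw : gauge K w ≤ (1 + 2 * ε) * nrm w := by
        by_cases hw0 : w = 0
        · rw [hw0, gauge_zero]
          have := nrm_nonneg (0 : V)
          positivity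
        · have h1 : nrm w • proj w = w := nrm_proj w hw0
          have h2 : gauge K w = nrm w * gauge K (proj w) := by
            conv_lhs => rw [← h1]
            rw [gauge_smul_of_nonneg (nrm_nonneg w)]; rfl
          rw [h2]
          have h3 := (hb _ (proj_sph hw0)).2
          have := nrm_nonneg w
          nlinarith
      have hnw : nrm w ≤ 1 + l * (1 + l) * d ^ 2 / 2 := by
        have h1 : nrm w ^ 2 = 1 + l * (1 + l) * d ^ 2 := by rw [nrm_sq, hww]
        have h2 : 0 ≤ l * (1 + l) * d ^ 2 := by positivity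
        have h3 : nrm w ^ 2 ≤ (1 + l * (1 + l) * d ^ 2 / 2) ^ 2 := by
          rw [h1]; nlinarith [sq_nonneg (l * (1 + l) * d ^ 2)]
        exact le_of_sq_le_sq h3 (by positivity)
      have hgu := (hb u hu).1
      have hmain : (1 + l) * (gauge K v - gauge K u) ≤ 4 * ε + 3 / 4 * (l * (1 + l) * d ^ 2) := by
        have h2 : 0 ≤ l * (1 + l) * d ^ 2 := by positivity
        have h3 : gauge K w ≤ (1 + 2 * ε) * (1 + l * (1 + l) * d ^ 2 / 2) :=
          le_trans hgw (mul_le_mul_of_nonneg_left hnw (by positivity))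
        nlinarith
      have hld : l * d = Real.sqrt ε := by rw [hl]; field_simp
      have hss : Real.sqrt ε * Real.sqrt ε = ε := Real.mul_self_sqrt hε
      -- (1+l) * (5 sqrt ε d) ≥ RHS
      have hkey : 4 * ε + 3 / 4 * (l * (1 + l) * d ^ 2) ≤ (1 + l) * (5 * Real.sqrt ε * d) := by
        have e1 : l * (1 + l) * d ^ 2 = (1 + l) * (Real.sqrt ε * d) := by
          calc l * (1 + l) * d ^ 2 = (1 + l) * (l * d * d) := by ring
            _ = (1 + l) * (Real.sqrt ε * d) := by rw [hld]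
        have e2 : ε ≤ (1 + l) * (Real.sqrt ε * d) := by
          have : l * (Real.sqrt ε * d) = ε := by
            calc l * (Real.sqrt ε * d) = Real.sqrt ε * (l * d) := by ring
              _ = ε := by rw [hld, hss]
          have h5 : 0 ≤ Real.sqrt ε * d := by positivity
          nlinarith
        rw [e1]
        have h5 : 0 ≤ (1 + l) * (Real.sqrt ε * d) := by positivity
        nlinarith
      have hfin : (1 + l) * (gauge K v - gauge K u) ≤ (1 + l) * (5 * Real.sqrt ε * d) :=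
        hmain.trans hkey
      exact le_of_mul_le_mul_left hfin (by positivity)

/-- **G4** (from `G_G3`). -/
theorem gG4 (hG3 : G_G3) : G_G4 := by
  refine ⟨480, by norm_num, ?_⟩
  intro K ε hK hKc h0 hε hε4 hfr u hu v hv
  obtain ⟨hA, -⟩ := hG3 K ε hK hKc h0 hε hε4 hfr
  have hb : ∀ u ∈ sph, 1 - 2 * ε ≤ gauge K u ∧ gauge K u ≤ 1 + 2 * ε := fun u hu =>
    gauge_bounds hε hε4 (hA u hu).1 (hA u hu).2.2
  have h1 := one_side hK h0 hε hε4 hb hu hv
  have h2 := one_side hK h0 hε hε4 hb hv hu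
  rw [nrm_sub_comm] at h1
  have hs0 : 0 ≤ Real.sqrt ε := Real.sqrt_nonneg _
  have hdn : nrm (u - v) ≤ 2 * ‖u - v‖ := nrm_le_norm _
  have habs : |gauge K u - gauge K v| ≤ 10 * Real.sqrt ε * ‖u - v‖ := by
    have h3 : 5 * Real.sqrt ε * nrm (u - v) ≤ 10 * Real.sqrt ε * ‖u - v‖ := by nlinarith
    rw [abs_le]
    constructor <;> linarith
  have hgu := hb u hu
  have hgv := hb v hv
  set a := gauge K u
  set b := gauge K v
  have ha : 1 / 2 ≤ a := by linarith [hgu.1]
  have hb' : 1 / 2 ≤ b := by linarith [hgv.1]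
  have ha2 : a ≤ 3 / 2 := by linarith [hgu.2]
  have hb2 : b ≤ 3 / 2 := by linarith [hgv.2]
  have hap : 0 < a := by linarith
  have hbp : 0 < b := by linarith
  have hia : a⁻¹ ≤ 2 := by
    rw [inv_le_comm₀ hap (by norm_num)]; linarith
  have hib : b⁻¹ ≤ 2 := by
    rw [inv_le_comm₀ hbp (by norm_num)]; linarith
  have hia0 : 0 < a⁻¹ := inv_pos.2 hap
  have hib0 : 0 < b⁻¹ := inv_pos.2 hbp
  have e1 : a⁻¹ ^ 2 - b⁻¹ ^ 2 = (b - a) * (b + a) * (a⁻¹ ^ 2 * b⁻¹ ^ 2) := by
    field_simp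
    ring
  have hq : a⁻¹ ^ 2 * b⁻¹ ^ 2 ≤ 16 := by
    have i1 : a⁻¹ ^ 2 ≤ 4 := by nlinarith
    have i2 : b⁻¹ ^ 2 ≤ 4 := by nlinarith
    have i3 : 0 ≤ b⁻¹ ^ 2 := by positivity
    calc a⁻¹ ^ 2 * b⁻¹ ^ 2 ≤ 4 * 4 := mul_le_mul i1 i2 i3 (by norm_num)
      _ = 16 := by norm_num
  have hq0 : 0 ≤ a⁻¹ ^ 2 * b⁻¹ ^ 2 := by positivity
  rw [e1, abs_mul, abs_mul, abs_of_nonneg hq0, abs_of_pos (by linarith : 0 < b + a), abs_sub_comm]
  have hn0 : 0 ≤ |a - b| := abs_nonneg _
  calc |a - b| * (b + a) * (a⁻¹ ^ 2 * b⁻¹ ^ 2) ≤ |a - b| * 3 * 16 := by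
        apply mul_le_mul _ hq hq0 (by positivity)
        exact mul_le_mul_of_nonneg_left (by linarith) hn0
    _ ≤ (10 * Real.sqrt ε * ‖u - v‖) * 3 * 16 := by nlinarith
    _ = 480 * Real.sqrt ε * ‖u - v‖ := by ring

end Pool.Agent.Helper53.LU
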